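import Pool.Agent.Lib_helper14.GH8.Main

set_option autoImplicit false

namespace Pool.Agent.Results.MP_468f87_co.AllButFive

/-- For every prime power `s` other than `5` there is a generalized Hadamard matrix `GH(s, 8)`. -/
theorem result :
    ∀ s : ℕ, IsPrimePow s → s ≠ 5 →
      ∃ (G : Type) (_ : Group G) (_ : Fintype G) (_ : DecidableEq G),
        Fintype.card G = s ∧
        ∃ D : Fin (s * 8) → Fin (s * 8) → G,
          ∀ i j : Fin (s * 8), i ≠ j → ∀ g : G,
            (Finset.univ.filter (fun k : Fin (s * 8) => D i k * (D j k)⁻¹ = g)).card = 8 :=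
  fun _ hs h5 => Pool.Agent.GH8.hasGH_of_isPrimePow hs h5

end Pool.Agent.Results.MP_468f87_co.AllButFive
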