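import Mathlib
import Pool.Agent.Lib_helper98.GH5.Final
import Pool.Agent.Lib_helper98.GH5.DetC
import Pool.Agent.Lib_helper98.GH5.O4F8
import Pool.Agent.Lib_helper98.GH5.Norm5
import Pool.Agent.Lib_helper98.GH5.Cocyclic

set_option autoImplicit false

open Finset Equiv

attribute [-instance] Pool.Agent.GH5.fact5

namespace Pool.Agent.Results.MP_468f87_co.SymmetryOfGH5

/-- `D` is a generalized Hadamard matrix `GH(5,8)` over the group `ℤ/5`: a `40 × 40` matrix such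
that for two distinct rows every element of `ℤ/5` occurs exactly 8 times among the 40
differences.  (Every group of order 5 is isomorphic to `ℤ/5`.) -/
def IsGH58 (D : Fin 40 → Fin 40 → ZMod 5) : Prop :=
  ∀ i j : Fin 40, i ≠ j → ∀ x : ZMod 5,
    (univ.filter fun k : Fin 40 => D i k - D j k = x).card = 8

/-- The symmetry group `G₁` of `D`: the pairs `(σ, τ)` of a row permutation and a column
permutation with `D (σ i) (τ j) = D i j + a i + b j` for some `a`, `b`. -/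
def symGroup (D : Fin 40 → Fin 40 → ZMod 5) : Subgroup (Perm (Fin 40) × Perm (Fin 40)) where
  carrier := {g | ∃ a b : Fin 40 → ZMod 5, ∀ i j, D (g.1 i) (g.2 j) = D i j + a i + b j}
  one_mem' := ⟨0, 0, by simp⟩
  mul_mem' := by
    rintro g h ⟨a, b, hg⟩ ⟨c, d, hh⟩
    refine ⟨fun i => c i + a (h.1 i), fun j => d j + b (h.2 j), fun i j => ?_⟩
    have h1 := hg (h.1 i) (h.2 j)
    have h2 := hh i j
    change D (g.1 (h.1 i)) (g.2 (h.2 j)) = _
    rw [h1, h2]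
    ring
  inv_mem' := by
    rintro g ⟨a, b, hg⟩
    refine ⟨fun i => - a (g.1⁻¹ i), fun j => - b (g.2⁻¹ j), fun i j => ?_⟩
    have h1 := hg (g.1⁻¹ i) (g.2⁻¹ j)
    rw [show g.1 (g.1⁻¹ i) = i from g.1.apply_symm_apply i,
      show g.2 (g.2⁻¹ j) = j from g.2.apply_symm_apply j] at h1
    change D (g.1⁻¹ i) (g.2⁻¹ j) = _
    rw [h1]
    ring

/-- The symmetry group `G` with multipliers: the triples `(σ, τ, u)`, `u` a unit of `ℤ/5`, with
`D (σ i) (τ j) = u * D i j + a i + b j` for some `a`, `b`. -/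
def fullGroup (D : Fin 40 → Fin 40 → ZMod 5) :
    Subgroup (Perm (Fin 40) × Perm (Fin 40) × (ZMod 5)ˣ) where
  carrier := {g | ∃ a b : Fin 40 → ZMod 5, ∀ i j,
    D (g.1 i) (g.2.1 j) = g.2.2 * D i j + a i + b j}
  one_mem' := ⟨0, 0, by simp⟩
  mul_mem' := by
    rintro g h ⟨a, b, hg⟩ ⟨c, d, hh⟩
    refine ⟨fun i => g.2.2 * c i + a (h.1 i), fun j => g.2.2 * d j + b (h.2.1 j),
      fun i j => ?_⟩
    have h1 := hg (h.1 i) (h.2.1 j)
    have h2 := hh i j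
    change D (g.1 (h.1 i)) (g.2.1 (h.2.1 j)) =
      ((g.2.2 * h.2.2 : (ZMod 5)ˣ) : ZMod 5) * D i j + _ + _
    rw [h1, h2, Units.val_mul]
    ring
  inv_mem' := by
    rintro g ⟨a, b, hg⟩
    refine ⟨fun i => - ((g.2.2⁻¹ : (ZMod 5)ˣ) : ZMod 5) * a (g.1⁻¹ i),
      fun j => - ((g.2.2⁻¹ : (ZMod 5)ˣ) : ZMod 5) * b (g.2.1⁻¹ j), fun i j => ?_⟩
    have h1 := hg (g.1⁻¹ i) (g.2.1⁻¹ j)
    rw [show g.1 (g.1⁻¹ i) = i from g.1.apply_symm_apply i,
      show g.2.1 (g.2.1⁻¹ j) = j from g.2.1.apply_symm_apply j] at h1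
    change D (g.1⁻¹ i) (g.2.1⁻¹ j) = ((g.2.2⁻¹ : (ZMod 5)ˣ) : ZMod 5) * D i j + _ + _
    have hu : ((g.2.2⁻¹ : (ZMod 5)ˣ) : ZMod 5) * (g.2.2 : ZMod 5) = 1 := by
      rw [← Units.val_mul, inv_mul_cancel, Units.val_one]
    rw [h1]
    linear_combination (- D (g.1⁻¹ i) (g.2.1⁻¹ j)) * hu

/-- The number of rows fixed by `g`. -/
def rowsFixed (g : Perm (Fin 40) × Perm (Fin 40)) : ℕ := (univ.filter fun i => g.1 i = i).card

/-- The number of columns fixed by `g`. -/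
def colsFixed (g : Perm (Fin 40) × Perm (Fin 40)) : ℕ := (univ.filter fun j => g.2 j = j).card

/-- Symmetries of a generalized Hadamard matrix `GH(5,8)`; there is no cocyclic one. -/
theorem result :
    (∀ D : Fin 40 → Fin 40 → ZMod 5, IsGH58 D →
    -- the orders of the two groups
    (Nat.card (symGroup D) ∣ 2 ^ 10 * 3 * 5 ∧ Nat.card (fullGroup D) ∣ 2 ^ 12 * 3 * 5) ∧
    -- the orders of the elements of `G₁`
    (∀ g ∈ symGroup D, orderOf g ∈ ({1, 2, 3, 4, 5, 6, 8, 10, 20} : Set ℕ)) ∧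
    -- fixed rows and fixed columns
    (∀ g ∈ symGroup D, ¬ 5 ∣ orderOf g → rowsFixed g = colsFixed g) ∧
    (∀ g ∈ symGroup D, orderOf g = 2 → rowsFixed g = 0 ∨ rowsFixed g = 4 ∨ rowsFixed g = 8) ∧
    (∀ g ∈ symGroup D, orderOf g = 3 → rowsFixed g = 1) ∧
    (∀ g ∈ symGroup D, orderOf g = 4 →
      (rowsFixed (g ^ 2) = 0 ∧ rowsFixed g = 0) ∨ (rowsFixed (g ^ 2) = 4 ∧ rowsFixed g = 2) ∨
      (rowsFixed (g ^ 2) = 8 ∧ rowsFixed g = 0) ∨ (rowsFixed (g ^ 2) = 8 ∧ rowsFixed g = 4)) ∧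
    (∀ g ∈ symGroup D, orderOf g = 5 →
      (rowsFixed g = 0 ∧ colsFixed g = 0) ∨ (rowsFixed g = 5 ∧ colsFixed g = 0) ∨
      (rowsFixed g = 0 ∧ colsFixed g = 5)) ∧
    (∀ g ∈ symGroup D, orderOf g = 6 → rowsFixed (g ^ 3) = 4) ∧
    (∀ g ∈ symGroup D, orderOf g = 8 → rowsFixed (g ^ 4) = 8 ∧
      ((rowsFixed (g ^ 2) = 0 ∧ rowsFixed g = 0) ∨ (rowsFixed (g ^ 2) = 4 ∧ rowsFixed g = 2))) ∧
    (∀ g ∈ symGroup D, 10 ∣ orderOf g → ∀ n : ℕ, g ^ n ≠ 1 →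
      rowsFixed (g ^ n) = 0 ∧ colsFixed (g ^ n) = 0) ∧
    -- groups acting semiregularly on the rows or on the columns
    (∀ Q ≤ symGroup D, ((∀ g ∈ Q, g ≠ 1 → rowsFixed g = 0) ∨
      (∀ g ∈ Q, g ≠ 1 → colsFixed g = 0)) → Nat.card Q ∣ 20) ∧
    -- groups of order prime to 5: normal form and the rectangle inequality
    (∀ Q ≤ symGroup D, (Nat.card Q).Coprime 5 →
      (∃ u v : Fin 40 → ZMod 5, ∀ g ∈ Q, ∀ i j,
        D (g.1 i) (g.2 j) + u (g.1 i) + v (g.2 j) = D i j + u i + v j) ∧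
      (∀ j, {i | ∀ g ∈ Q, g.1 i = i}.ncard * {k | ∃ g ∈ Q, g.2 j = k}.ncard ≤ 40) ∧
      (∀ i, {j | ∀ g ∈ Q, g.2 j = j}.ncard * {k | ∃ g ∈ Q, g.1 i = k}.ncard ≤ 40)) ∧
    -- 2-groups which fix at least five rows
    (∀ Q ≤ symGroup D, ∀ n : ℕ, Nat.card Q = 2 ^ n → 5 ≤ {i | ∀ g ∈ Q, g.1 i = i}.ncard →
      Nat.card Q ∣ 16 ∧ ∀ g ∈ Q, g ^ 2 = 1) ∧
    -- normal form for the elements of order 5 without fixed rows and fixed columns
    (∀ g ∈ symGroup D, orderOf g = 5 → rowsFixed g = 0 → colsFixed g = 0 →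
      ∃ u v : Fin 40 → ZMod 5, ∀ i j,
        D (g.1 i) (g.2 j) + u (g.1 i) + v (g.2 j) = D i j + u i + v j)) ∧
    -- no cocyclic `GH(5,8)` over a group of order 40 (`ψ = 0`: no group-developed one)
    (∀ (Q : Type) [Group Q], Nat.card Q = 40 → ∀ (ψ : Q → Q → ZMod 5) (φ : Q → ZMod 5),
      (∀ x y z, ψ x y + ψ (x * y) z = ψ x (y * z) + ψ y z) →
      ¬ ∀ x x' : Q, x ≠ x' → ∀ c : ZMod 5,
        {y : Q | (ψ x y + φ (x * y)) - (ψ x' y + φ (x' * y)) = c}.ncard = 8) := by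
  refine ⟨fun D hD => ?_, fun Q _ hQ ψ φ hψ h => Pool.Agent.GH5.no_cocyclic Q hQ ψ φ hψ h⟩
  have hD' : Pool.Agent.GH5.IsGH D := hD
  have hO : Pool.Agent.GH5.St_o4f8 := Pool.Agent.GH5.o4f8
  have hC : Pool.Agent.GH5.St_detC := Pool.Agent.GH5.detC
  have hN : Pool.Agent.GH5.St_norm5 := Pool.Agent.GH5.norm5
  have zero_rows : ∀ g : Perm (Fin 40) × Perm (Fin 40), rowsFixed g = 0 → ∀ i, g.1 i ≠ i := by
    intro g hg i hi
    have h0 : (univ.filter fun i => g.1 i = i).card = 0 := hg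
    have : i ∈ (univ.filter fun i => g.1 i = i) := Finset.mem_filter.2 ⟨Finset.mem_univ _, hi⟩
    rw [Finset.card_eq_zero.1 h0] at this
    exact absurd this (Finset.notMem_empty _)
  have zero_cols : ∀ g : Perm (Fin 40) × Perm (Fin 40), colsFixed g = 0 → ∀ i, g.2 i ≠ i := by
    intro g hg i hi
    have h0 : (univ.filter fun i => g.2 i = i).card = 0 := hg
    have : i ∈ (univ.filter fun i => g.2 i = i) := Finset.mem_filter.2 ⟨Finset.mem_univ _, hi⟩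
    rw [Finset.card_eq_zero.1 h0] at this
    exact absurd this (Finset.notMem_empty _)
  refine ⟨⟨Pool.Agent.GH5.card_Sym_dvd hO hD', Pool.Agent.GH5.card_FullSym_dvd hO hD'⟩,
    fun g hg => Pool.Agent.GH5.orders hO hC hD' hg, ?_,
    fun g hg ho => (Pool.Agent.GH5.order2 hD' hg ho).2,
    fun g hg ho => (Pool.Agent.GH5.order3 hD' hg ho).1,
    fun g hg ho => Pool.Agent.GH5.order4 hO hD' hg ho, ?_,
    fun g hg ho => Pool.Agent.GH5.order6 hD' hg ho,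
    fun g hg ho => Pool.Agent.GH5.order8 hO hC hD' hg ho,
    fun g hg ho n hn => Pool.Agent.GH5.order_ten_semireg hO hC hD' hg ho n hn, ?_, ?_,
    fun Q hQ n hn h5 => Pool.Agent.GH5.five_rows_group hO hD' Q hQ n hn h5, ?_⟩
  · intro g hg h5
    exact (Pool.Agent.GH5.fixed_of_coprime hD' hg
      ((Nat.coprime_comm.1 ((Nat.Prime.coprime_iff_not_dvd (by norm_num)).2 h5)))).1
  · intro g hg ho
    refine Pool.Agent.GH5.types5 hD' hg (orderOf_dvd_iff_pow_eq_one.1 (dvd_of_eq ho)) ?_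
    rintro rfl
    rw [orderOf_one] at ho
    norm_num at ho
  · rintro Q hQ (h | h)
    · exact Pool.Agent.GH5.semireg_rows hD' Q hQ h
    · exact Pool.Agent.GH5.semireg_cols hD' Q hQ h
  · intro Q hQ h5
    refine ⟨?_, fun j => Pool.Agent.GH5.rect_group hD' Q hQ h5 j,
      fun i => Pool.Agent.GH5.rect_group' hD' Q hQ h5 i⟩
    obtain ⟨E, -, ⟨u, v, huv⟩, hinv⟩ := Pool.Agent.GH5.exists_invariant hD' Q hQ h5
    refine ⟨u, v, fun g hg i j => ?_⟩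
    rw [← huv, ← huv]
    exact hinv g hg i j
  · intro g hg ho hr hc
    have h5 : g ^ 5 = 1 := orderOf_dvd_iff_pow_eq_one.1 (dvd_of_eq ho)
    obtain ⟨a, b, h⟩ := hg
    exact hN D hD' g.1 g.2 a b (congrArg Prod.fst h5) (congrArg Prod.snd h5)
      (zero_rows g hr) (zero_cols g hc) h

end Pool.Agent.Results.MP_468f87_co.SymmetryOfGH5
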